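import Pool.Agent.LinAlg.Rref

/-!
Relations between vectors, solutions of linear systems, linear maps given by lists of columns.
-/

set_option autoImplicit false
set_option linter.unusedSectionVars false

namespace Pool.Agent.LinAlg

section

variable {K : Type} [Field K] [DecidableEq K]

/-- The vectors of `L` followed by the unit vectors. -/
def aug (n : ℕ) (L : List (List K)) : List (List K) :=
  (List.range L.length).map fun i => mkv (n + L.length) fun j =>
    if j < n then vl (L.getD i []) j else if j = n + i then 1 else 0

/-- The last coordinates of a vector. -/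
def sh (n : ℕ) (x : ℕ → K) : ℕ → K := fun i => x (n + i)

theorem mem_Sp_aug {n : ℕ} {L : List (List K)} {x : ℕ → K} :
    x ∈ Sp (aug n L) ↔ Supp (n + L.length) x ∧ ∀ j < n, x j = comb L (sh n x) j := by
  constructor
  · intro hx
    induction hx using Submodule.span_induction with
    | mem x hx =>
      obtain ⟨v, hv, rfl⟩ := hx
      obtain ⟨i, hi, rfl⟩ := List.mem_map.1 hv
      rw [List.mem_range] at hi
      refine ⟨supp_mkv _ _, fun j hj => ?_⟩
      rw [vl_mkv_lt (by omega), if_pos hj]
      have : comb L (sh n (vl (mkv (n + L.length) fun j =>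
          if j < n then vl (L.getD i []) j else if j = n + i then 1 else 0))) =
          comb L (Pi.single i 1) := by
        apply comb_congr
        intro k hk
        unfold sh
        rw [vl_mkv_lt (by omega), if_neg (by omega)]
        by_cases hki : k = i
        · subst hki; simp
        · rw [if_neg (by omega), Pi.single_eq_of_ne hki]
      rw [this, comb_single L i hi]
    | zero => exact ⟨fun _ _ => rfl, fun j _ => by
        have : sh n (0 : ℕ → K) = 0 := rfl
        rw [this, comb_zero]⟩
    | add x y _ _ hx hy =>
      refine ⟨fun i hi => by rw [Pi.add_apply, hx.1 i hi, hy.1 i hi, add_zero], fun j hj => ?_⟩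
      have : sh n (x + y) = sh n x + sh n y := rfl
      rw [this, comb_add, Pi.add_apply, Pi.add_apply, hx.2 j hj, hy.2 j hj]
    | smul c x _ hx =>
      refine ⟨fun i hi => by rw [Pi.smul_apply, hx.1 i hi, smul_zero], fun j hj => ?_⟩
      have : sh n (c • x) = c • sh n x := rfl
      rw [this, comb_smul, Pi.smul_apply, Pi.smul_apply, hx.2 j hj]
  · rintro ⟨hs, h⟩
    have : x = ∑ i ∈ Finset.range L.length, sh n x i • vl ((aug n L).getD i []) := by
      funext j
      rw [Finset.sum_apply]
      have e : ∀ i ∈ Finset.range L.length, vl ((aug n L).getD i []) j =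
          if j < n then vl (L.getD i []) j else if j = n + i then 1 else 0 := by
        intro i hi
        rw [Finset.mem_range] at hi
        unfold aug
        rw [List.getD_eq_getElem _ _ (by simpa using hi), List.getElem_map, List.getElem_range]
        by_cases hj : j < n + L.length
        · rw [vl_mkv_lt hj]
        · rw [vl_mkv_ge (by omega), if_neg (by omega), if_neg (by omega)]
      rw [Finset.sum_congr rfl fun i hi => by rw [Pi.smul_apply, e i hi]]
      by_cases hj : j < n
      · simp only [if_pos hj, smul_eq_mul]
        exact h j hj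
      · simp only [if_neg hj, smul_eq_mul, mul_ite, mul_one, mul_zero]
        by_cases hj2 : j < n + L.length
        · rw [Finset.sum_eq_single (j - n)]
          · rw [if_pos (by omega)]
            unfold sh
            congr 1
            omega
          · intro k _ hk
            rw [if_neg (by omega)]
          · intro hk
            exact absurd (Finset.mem_range.2 (by omega)) hk
        · rw [hs j (by omega)]
          symm
          apply Finset.sum_eq_zero
          intro k hk
          rw [Finset.mem_range] at hk
          rw [if_neg (by omega)]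
    rw [this]
    refine Submodule.sum_mem _ fun i hi => Submodule.smul_mem _ _ (mem_Sp ?_)
    rw [Finset.mem_range] at hi
    rw [List.getD_eq_getElem _ _ (by simpa [aug] using hi)]
    exact List.getElem_mem _

theorem supp_aug (n : ℕ) (L : List (List K)) : ∀ v ∈ aug n L, Supp (n + L.length) (vl v) := by
  intro v hv
  obtain ⟨i, _, rfl⟩ := List.mem_map.1 hv
  exact supp_mkv _ _

/-- The eliminated augmented system. -/
def augS (n : ℕ) (L : List (List K)) : St K := rref (n + L.length) (aug n L)

theorem mem_Sp_augS {n : ℕ} {L : List (List K)} {x : ℕ → K} :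
    x ∈ Sp (rows (augS n L)) ↔ Supp (n + L.length) x ∧ ∀ j < n, x j = comb L (sh n x) j := by
  unfold augS
  rw [Sp_rref (supp_aug n L), mem_Sp_aug]

theorem ech_augS (n : ℕ) (L : List (List K)) : Ech (n + L.length) (augS n L) := ech_rref _ _

/-- If a vector of the span vanishes at the pivots below `n` then it vanishes below `n`. -/
theorem Ech.zero_below {n m : ℕ} {S : St K} (h : Ech n S) {x : ℕ → K} (hx : x ∈ Sp (rows S))
    (h0 : ∀ p ∈ S, p.1 < m → x p.1 = 0) : ∀ j < m, x j = 0 := by
  intro j hj
  rw [h.eq_sum hx, list_sum_apply]
  apply List.sum_eq_zero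
  intro y hy
  obtain ⟨p, hp, rfl⟩ := List.mem_map.1 hy
  rw [Pi.smul_apply]
  by_cases hpm : p.1 < m
  · rw [h0 p hp hpm, zero_smul]
  · rw [h.before p hp j (by omega), smul_zero]

/-- A basis of the relations between the vectors of a list (of length at most `n`). -/
def rels (n : ℕ) (L : List (List K)) : List (List K) :=
  ((augS n L).filter fun p => decide (n ≤ p.1)).map fun p => mkv L.length fun i => vl p.2 (n + i)

theorem length_rels_mem {n : ℕ} {L : List (List K)} {v : List K} (hv : v ∈ rels n L) :
    v.length = L.length := by
  obtain ⟨p, _, rfl⟩ := List.mem_map.1 hv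
  simp

theorem sh_eq_of_row {n : ℕ} {L : List (List K)} {p : ℕ × List K} (hp : p ∈ augS n L) :
    vl (mkv L.length fun i => vl p.2 (n + i)) = sh n (vl p.2) := by
  funext i
  rw [vl_mkv]
  split_ifs with h
  · rfl
  · exact ((ech_augS n L).supp p hp (n + i) (by omega)).symm

theorem mem_rels {n : ℕ} {L : List (List K)} {c : ℕ → K} :
    c ∈ Sp (rels n L) ↔ Supp L.length c ∧ ∀ j < n, comb L c j = 0 := by
  constructor
  · intro hc
    induction hc using Submodule.span_induction with
    | mem x hx =>
      obtain ⟨v, hv, rfl⟩ := hx
      obtain ⟨p, hp, rfl⟩ := List.mem_map.1 hv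
      rw [List.mem_filter, decide_eq_true_eq] at hp
      rw [sh_eq_of_row hp.1]
      obtain ⟨h1, h2⟩ := mem_Sp_augS.1 (mem_Sp (mem_rows hp.1))
      refine ⟨fun i hi => h1 (n + i) (by omega), fun j hj => ?_⟩
      rw [← h2 j hj]
      exact (ech_augS n L).before p hp.1 j (by omega)
    | zero => exact ⟨fun _ _ => rfl, fun j _ => by rw [comb_zero]; rfl⟩
    | add x y _ _ hx hy =>
      refine ⟨fun i hi => by rw [Pi.add_apply, hx.1 i hi, hy.1 i hi, add_zero], fun j hj => ?_⟩
      rw [comb_add, Pi.add_apply, hx.2 j hj, hy.2 j hj, add_zero]
    | smul c x _ hx =>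
      refine ⟨fun i hi => by rw [Pi.smul_apply, hx.1 i hi, smul_zero], fun j hj => ?_⟩
      rw [comb_smul, Pi.smul_apply, hx.2 j hj, smul_zero]
  · rintro ⟨hs, h⟩
    let x : ℕ → K := fun j => if j < n then 0 else c (j - n)
    have hsh : sh n x = c := by
      funext i
      simp [sh, x]
    have hx : x ∈ Sp (rows (augS n L)) := by
      rw [mem_Sp_augS]
      refine ⟨fun i hi => ?_, fun j hj => ?_⟩
      · simp only [x]
        rw [if_neg (by omega)]
        exact hs _ (by omega)
      · rw [hsh, h j hj]
        simp only [x]
        rw [if_pos hj]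
    have e := (ech_augS n L).eq_sum hx
    have e2 : c = (((augS n L).filter fun p => decide (n ≤ p.1)).map fun p =>
        x p.1 • vl (mkv L.length fun i => vl p.2 (n + i))).sum := by
      funext i
      have e3 := congrFun e (n + i)
      rw [list_sum_apply] at e3 ⊢
      have e4 : x (n + i) = c i := congrFun hsh i
      rw [← e4, e3]
      have key : ∀ T : St K, (∀ p ∈ T, p ∈ augS n L) →
          (T.map fun a => (x a.1 • vl a.2) (n + i)).sum =
          ((T.filter fun p => decide (n ≤ p.1)).map fun a =>
            (x a.1 • vl (mkv L.length fun i => vl a.2 (n + i))) i).sum := by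
        intro T
        induction T with
        | nil => intro _; rfl
        | cons p T ih =>
          intro hT
          rw [List.map_cons, List.sum_cons, ih fun q hq => hT q (List.mem_cons_of_mem _ hq)]
          by_cases hpn : n ≤ p.1
          · rw [List.filter_cons_of_pos (by simpa using hpn), List.map_cons, List.sum_cons,
              sh_eq_of_row (hT p List.mem_cons_self)]
            rfl
          · rw [List.filter_cons_of_neg (by simpa using hpn)]
            have : x p.1 = 0 := by
              simp only [x]
              rw [if_pos (by omega)]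
            rw [Pi.smul_apply, this, zero_smul, zero_add]
      exact key _ fun p hp => hp
    rw [e2]
    apply list_sum_mem
    intro y hy
    obtain ⟨p, hp, rfl⟩ := List.mem_map.1 hy
    exact Submodule.smul_mem _ _ (mem_Sp (List.mem_map.2 ⟨p, hp, rfl⟩))

/-- Coefficients of a vector with respect to a list of vectors. -/
def solve (n : ℕ) (L : List (List K)) (v : List K) : List K :=
  mkv L.length fun i => - vl (red (n + L.length) (augS n L) (mkv n (vl v))) (n + i)

@[simp] theorem length_solve (n : ℕ) (L : List (List K)) (v : List K) :
    (solve n L v).length = L.length := by simp [solve]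

theorem comb_solve {n : ℕ} {L : List (List K)} (hL : ∀ u ∈ L, Supp n (vl u)) {v : List K}
    (hv : Supp n (vl v)) (h : vl v ∈ Sp L) : comb L (vl (solve n L v)) = vl v := by
  obtain ⟨c, hc, hcv⟩ := mem_Sp_iff_comb.1 h
  set S := augS n L with hS
  set v' := mkv n (vl v) with hv'
  have ev' : vl v' = vl v := vl_mkv_of_supp hv
  have hv's : Supp (n + L.length) (vl v') := fun i hi => by rw [ev']; exact hv i (by omega)
  set w := red (n + L.length) S v' with hw
  have hws : Supp (n + L.length) (vl w) := supp_mkv _ _
  have hm : vl v' - vl w ∈ Sp (rows S) := (ech_augS n L).sub_red_mem hv's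
  -- the vector (v, c)
  let y : ℕ → K := fun j => if j < n then vl v j else c (j - n)
  have hsh : sh n y = c := by
    funext i
    simp [sh, y]
  have hy : y ∈ Sp (rows S) := by
    rw [hS, mem_Sp_augS]
    refine ⟨fun i hi => ?_, fun j hj => ?_⟩
    · simp only [y]
      rw [if_neg (by omega)]
      exact hc _ (by omega)
    · rw [hsh, hcv]
      simp only [y]
      rw [if_pos hj]
  have hz : ∀ j < n, (y - (vl v' - vl w)) j = 0 := by
    refine (ech_augS n L).zero_below (Submodule.sub_mem _ hy hm) fun p hp hpn => ?_
    rw [Pi.sub_apply, Pi.sub_apply, (ech_augS n L).red_pivot v' hp, ev']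
    simp only [y]
    rw [if_pos hpn]
    ring
  have hw0 : ∀ j < n, vl w j = 0 := by
    intro j hj
    have := hz j hj
    rw [Pi.sub_apply, Pi.sub_apply, ev'] at this
    simp only [y] at this
    rw [if_pos hj] at this
    have h2 : vl w j = vl v j - (vl v j - vl w j) := by ring
    rw [h2, this]
  obtain ⟨_, h2⟩ := mem_Sp_augS.1 hm
  have e : comb L (vl (solve n L v)) = comb L (sh n (vl v' - vl w)) := by
    apply comb_congr
    intro i hi
    unfold solve
    rw [vl_mkv_lt hi]
    unfold sh
    rw [Pi.sub_apply, ev', hv (n + i) (by omega), zero_sub]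
  funext j
  rw [e]
  by_cases hj : j < n
  · rw [← h2 j hj, Pi.sub_apply, hw0 j hj, sub_zero, ev']
  · have : comb L (sh n (vl v' - vl w)) ∈ Sp L := comb_mem _ _
    rw [Sp_le_Fn hL this j (by omega), hv j (by omega)]

/-- Membership test. -/
def memb (n : ℕ) (L : List (List K)) (v : List K) : Bool :=
  (lead n (red n (rref n L) v)).isNone

theorem vl_eq_zero_iff_lead {n : ℕ} {v : List K} (hv : Supp n (vl v)) :
    (lead n v).isNone = true ↔ vl v = 0 := by
  rw [Option.isNone_iff_eq_none]
  constructor
  · intro h
    funext i
    by_cases hi : i < n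
    · exact lead_eq_none h i hi
    · exact hv i (by omega)
  · intro h
    cases hl : lead n v with
    | none => rfl
    | some j =>
      exact absurd (congrFun h j) (lead_eq_some hl).2.1

theorem memb_iff {n : ℕ} {L : List (List K)} (hL : ∀ u ∈ L, Supp n (vl u)) {v : List K}
    (hv : Supp n (vl v)) : memb n L v = true ↔ vl v ∈ Sp L := by
  unfold memb
  rw [vl_eq_zero_iff_lead (v := red n (rref n L) v) (supp_mkv _ _),
    (ech_rref n L).red_eq_zero_iff hv, Sp_rref hL]

theorem list_sum_range (m : ℕ) (f : ℕ → K) :
    ((List.range m).map f).sum = ∑ i ∈ Finset.range m, f i := by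
  induction m with
  | zero => simp
  | succ m ih => rw [List.range_succ, List.map_append, List.sum_append, ih, Finset.sum_range_succ]
                 simp

/-- The linear combination of the vectors of a list, computed. -/
def lc (n : ℕ) (L : List (List K)) (c : List K) : List K :=
  mkv n fun j => ((List.range L.length).map fun i => vl c i * vl (L.getD i []) j).sum

theorem vl_lc_lt {n : ℕ} (L : List (List K)) (c : List K) {j : ℕ} (hj : j < n) :
    vl (lc n L c) j = comb L (vl c) j := by
  unfold lc comb
  rw [vl_mkv_lt hj, list_sum_range]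

theorem vl_lc {n : ℕ} {L : List (List K)} (hL : ∀ u ∈ L, Supp n (vl u)) (c : List K) :
    vl (lc n L c) = comb L (vl c) := by
  funext j
  by_cases hj : j < n
  · exact vl_lc_lt L c hj
  · rw [Sp_le_Fn hL (comb_mem L _) j (by omega)]
    exact supp_mkv _ _ j (by omega)

end

end Pool.Agent.LinAlg
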