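import Pool.Agent.PolyTime.Ints
import Pool.Agent.LinAlg.Solve

/-!
Bit sizes of rational numbers.
-/

set_option autoImplicit false
set_option linter.unusedSectionVars false

namespace Pool.Agent.LinAlg

open Pool.Agent.PolyTime

/-- The bit size of the numerator or of the denominator, whichever is larger. -/
def hb (q : ℚ) : ℕ := max (size q.num.natAbs) (size q.den)

theorem hb_le_iff {q : ℚ} {h : ℕ} : hb q ≤ h ↔ q.num.natAbs < 2 ^ h ∧ q.den < 2 ^ h := by
  unfold hb
  rw [max_le_iff, size_nat_le, size_nat_le]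

theorem num_lt_hb (q : ℚ) : q.num.natAbs < 2 ^ hb q := (hb_le_iff.1 le_rfl).1

theorem den_lt_hb (q : ℚ) : q.den < 2 ^ hb q := (hb_le_iff.1 le_rfl).2

theorem hb_pos (q : ℚ) : 1 ≤ hb q := by
  by_contra h
  have h1 : hb q ≤ 0 := by omega
  have := (hb_le_iff.1 h1).2
  have h2 := q.den_pos
  simp at this

/-- The height of a quotient of integers. -/
theorem hb_div_le {A B : ℤ} (hB : B ≠ 0) {h : ℕ} (h1 : A.natAbs < 2 ^ h) (h2 : B.natAbs < 2 ^ h)
    {q : ℚ} (hq : q = (A : ℚ) / B) : hb q ≤ h := by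
  rw [hb_le_iff]
  have e : q * B = A := by
    rw [hq, div_mul_cancel₀]
    exact_mod_cast hB
  have e2 : q.num * B = A * q.den := by
    have h3 : (q.num : ℚ) * B = A * q.den := by
      have h4 : q * q.den = q.num := Rat.mul_den_eq_num q
      rw [← e, ← h4]
      ring
    exact_mod_cast h3
  have hcop : IsCoprime q.num (q.den : ℤ) := by
    rw [Int.isCoprime_iff_gcd_eq_one]
    exact q.reduced
  have hd1 : (q.den : ℤ) ∣ B := by
    have : (q.den : ℤ) ∣ q.num * B := ⟨A, by rw [e2]; ring⟩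
    exact hcop.symm.dvd_of_dvd_mul_left this
  have hden : q.den ≤ B.natAbs := by
    have := Int.natAbs_dvd_natAbs.2 hd1
    simp only [Int.natAbs_natCast] at this
    exact Nat.le_of_dvd (Int.natAbs_pos.2 hB) this
  refine ⟨?_, lt_of_le_of_lt hden h2⟩
  obtain ⟨c, hc⟩ := hd1
  have hA : A = q.num * c := by
    have h4 : (q.den : ℤ) ≠ 0 := by exact_mod_cast q.den_nz
    have h5 : A * q.den = q.num * c * q.den := by rw [← e2, hc]; ring
    exact mul_right_cancel₀ h4 h5
  have hc0 : c ≠ 0 := by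
    rintro rfl
    exact hB (by rw [hc, mul_zero])
  have h6 : q.num.natAbs ≤ A.natAbs := by
    rw [hA, Int.natAbs_mul]
    exact Nat.le_mul_of_pos_right _ (Int.natAbs_pos.2 hc0)
  exact lt_of_le_of_lt h6 h1

theorem hb_add (a b : ℚ) : hb (a + b) ≤ hb a + hb b + 1 := by
  have ha := hb_le_iff.1 (le_refl (hb a))
  have hb' := hb_le_iff.1 (le_refl (hb b))
  have pa := a.den_pos
  have pb := b.den_pos
  refine hb_div_le (A := a.num * b.den + b.num * a.den) (B := a.den * b.den) ?_ ?_ ?_ ?_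
  · have := a.den_nz; have := b.den_nz; positivity
  · have h1 : (a.num * b.den + b.num * a.den).natAbs ≤
        a.num.natAbs * b.den + b.num.natAbs * a.den := by
      refine (Int.natAbs_add_le _ _).trans ?_
      rw [Int.natAbs_mul, Int.natAbs_mul, Int.natAbs_natCast, Int.natAbs_natCast]
    have h2 : a.num.natAbs * b.den < 2 ^ hb a * 2 ^ hb b := Nat.mul_lt_mul'' ha.1 hb'.2
    have h3 : b.num.natAbs * a.den < 2 ^ hb b * 2 ^ hb a := Nat.mul_lt_mul'' hb'.1 ha.2
    rw [pow_succ, pow_add]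
    nlinarith
  · rw [Int.natAbs_mul, Int.natAbs_natCast, Int.natAbs_natCast]
    have h2 : a.den * b.den < 2 ^ hb a * 2 ^ hb b := Nat.mul_lt_mul'' ha.2 hb'.2
    rw [pow_succ, pow_add]
    omega
  · push_cast
    conv_lhs => rw [← Rat.num_div_den a, ← Rat.num_div_den b]
    have h1 : (a.den : ℚ) ≠ 0 := by exact_mod_cast a.den_nz
    have h2 : (b.den : ℚ) ≠ 0 := by exact_mod_cast b.den_nz
    field_simp

theorem hb_mul (a b : ℚ) : hb (a * b) ≤ hb a + hb b := by
  have ha := hb_le_iff.1 (le_refl (hb a))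
  have hb' := hb_le_iff.1 (le_refl (hb b))
  refine hb_div_le (A := a.num * b.num) (B := a.den * b.den) ?_ ?_ ?_ ?_
  · have := a.den_nz; have := b.den_nz; positivity
  · rw [Int.natAbs_mul, pow_add]
    exact Nat.mul_lt_mul'' ha.1 hb'.1
  · rw [Int.natAbs_mul, Int.natAbs_natCast, Int.natAbs_natCast, pow_add]
    exact Nat.mul_lt_mul'' ha.2 hb'.2
  · push_cast
    conv_lhs => rw [← Rat.num_div_den a, ← Rat.num_div_den b]
    have h1 : (a.den : ℚ) ≠ 0 := by exact_mod_cast a.den_nz
    have h2 : (b.den : ℚ) ≠ 0 := by exact_mod_cast b.den_nz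
    field_simp

@[simp] theorem hb_neg (a : ℚ) : hb (-a) = hb a := by
  unfold hb
  rw [Rat.neg_num, Rat.neg_den, Int.natAbs_neg]

theorem hb_sub (a b : ℚ) : hb (a - b) ≤ hb a + hb b + 1 := by
  rw [sub_eq_add_neg]
  exact (hb_add a (-b)).trans (by rw [hb_neg])

@[simp] theorem hb_zero : hb 0 = 1 := by
  unfold hb
  simp [size_nat]

@[simp] theorem hb_one : hb 1 = 1 := by
  unfold hb
  simp [size_nat]

theorem hb_inv (a : ℚ) : hb a⁻¹ ≤ hb a := by
  by_cases h : a = 0
  · rw [h, inv_zero]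
  · have ha := hb_le_iff.1 (le_refl (hb a))
    refine hb_div_le (A := a.den) (B := a.num) (Rat.num_ne_zero.2 h) ?_ ha.1 ?_
    · rw [Int.natAbs_natCast]; exact ha.2
    · conv_lhs => rw [← Rat.num_div_den a]
      rw [inv_div]
      push_cast
      rfl

theorem hb_div (a b : ℚ) : hb (a / b) ≤ hb a + hb b := by
  rw [div_eq_mul_inv]
  exact (hb_mul _ _).trans (Nat.add_le_add_left (hb_inv b) _)

theorem hb_list_sum (l : List ℚ) {h : ℕ} (hl : ∀ x ∈ l, hb x ≤ h) :
    hb l.sum ≤ l.length * (h + 1) + 1 := by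
  induction l with
  | nil => simp
  | cons a l ih =>
    rw [List.sum_cons, List.length_cons]
    have h1 := hb_add a l.sum
    have h2 := ih fun x hx => hl x (List.mem_cons_of_mem _ hx)
    have h3 := hl a List.mem_cons_self
    have h4 : (l.length + 1) * (h + 1) = l.length * (h + 1) + (h + 1) := by ring
    omega

theorem size_rat (q : ℚ) : size q = 2 * (size q.num.natAbs + 3) + 1 + size q.den := by
  change size (q.num, q.den) = _
  rw [size_pair, size_int]

theorem size_rat_le (q : ℚ) : size q ≤ 3 * hb q + 7 := by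
  rw [size_rat]
  have h1 : size q.num.natAbs ≤ hb q := le_max_left _ _
  have h2 : size q.den ≤ hb q := le_max_right _ _
  omega

theorem hb_le_size (q : ℚ) : hb q ≤ size q := by
  rw [size_rat]
  unfold hb
  omega

/-- All coordinates of a vector have height at most `h`. -/
def HB (h : ℕ) (x : ℕ → ℚ) : Prop := ∀ i, hb (x i) ≤ h

theorem HB.mono {h h' : ℕ} {x : ℕ → ℚ} (hx : HB h x) (hh : h ≤ h') : HB h' x :=
  fun i => (hx i).trans hh

theorem HB_of_mem {h : ℕ} (h1 : 1 ≤ h) {v : List ℚ} (hv : ∀ a ∈ v, hb a ≤ h) : HB h (vl v) := by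
  intro i
  unfold vl
  by_cases hi : i < v.length
  · rw [List.getD_eq_getElem _ _ hi]
    exact hv _ (List.getElem_mem hi)
  · rw [List.getD_eq_default _ _ (by omega), hb_zero]
    exact h1

theorem HB_size (v : List ℚ) : HB (size v + 1) (vl v) :=
  HB_of_mem (by omega) fun a ha => ((hb_le_size a).trans (size_mem_le ha)).trans (by omega)

theorem size_mkv_le {n h : ℕ} {f : ℕ → ℚ} (hf : ∀ i < n, hb (f i) ≤ h) :
    size (mkv n f) ≤ n * (2 * (3 * h + 7) + 1) := by
  have := size_le_of_forall (l := mkv n f) (B := 3 * h + 7) (fun a ha => by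
    obtain ⟨i, hi, rfl⟩ := List.mem_map.1 ha
    exact (size_rat_le _).trans (by have := hf i (List.mem_range.1 hi); omega))
  rwa [length_mkv] at this

end Pool.Agent.LinAlg
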