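import Pool.Agent.LinAlg.Height

/-!
Cramer's rule bounds the height of a reduced row echelon form.
-/

set_option autoImplicit false
set_option linter.unusedSectionVars false

namespace Pool.Agent.LinAlg

open Pool.Agent.PolyTime

/-- Integer multiple of a rational vector with support in `[0, n)`. -/
def intv (n : ℕ) (u : ℕ → ℚ) (i : ℕ) : ℤ :=
  (u i).num * ∏ j ∈ (Finset.range n).erase i, ((u j).den : ℤ)

def dprod (n : ℕ) (u : ℕ → ℚ) : ℕ := ∏ j ∈ Finset.range n, (u j).den

theorem dprod_ne_zero (n : ℕ) (u : ℕ → ℚ) : dprod n u ≠ 0 :=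
  Finset.prod_ne_zero_iff.2 fun j _ => (u j).den_nz

theorem intv_eq {n : ℕ} {u : ℕ → ℚ} (hu : Supp n u) (i : ℕ) :
    (intv n u i : ℚ) = dprod n u * u i := by
  by_cases hi : i < n
  · unfold intv dprod
    rw [← Finset.mul_prod_erase _ _ (Finset.mem_range.2 hi)]
    push_cast
    have h4 : u i * (u i).den = (u i).num := Rat.mul_den_eq_num (u i)
    rw [← h4]
    ring
  · unfold intv
    rw [hu i (by omega)]
    simp

theorem natAbs_intv_le {n b : ℕ} {u : ℕ → ℚ} (hb : HB b u) (i : ℕ) :
    (intv n u i).natAbs ≤ 2 ^ (b * (n + 1)) := by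
  unfold intv
  rw [Int.natAbs_mul]
  have h1 : (u i).num.natAbs ≤ 2 ^ b := (hb_le_iff.1 (hb i)).1.le
  have h2 : (∏ j ∈ (Finset.range n).erase i, ((u j).den : ℤ)).natAbs ≤ 2 ^ (b * n) := by
    rw [← Nat.cast_prod, Int.natAbs_natCast]
    calc ∏ j ∈ (Finset.range n).erase i, (u j).den ≤ ∏ j ∈ (Finset.range n).erase i, 2 ^ b :=
          Finset.prod_le_prod' fun j _ => (hb_le_iff.1 (hb j)).2.le
      _ = (2 ^ b) ^ ((Finset.range n).erase i).card := Finset.prod_const _
      _ ≤ (2 ^ b) ^ n := by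
          refine Nat.pow_le_pow_right (by positivity) ?_
          refine (Finset.card_le_card (Finset.erase_subset _ _)).trans ?_
          rw [Finset.card_range]
      _ = 2 ^ (b * n) := by rw [← pow_mul]
  calc (u i).num.natAbs * (∏ j ∈ (Finset.range n).erase i, ((u j).den : ℤ)).natAbs
      ≤ 2 ^ b * 2 ^ (b * n) := Nat.mul_le_mul h1 h2
    _ = 2 ^ (b * (n + 1)) := by rw [← pow_add]; congr 1; ring

theorem factorial_bound {k n : ℕ} (hk : k ≤ n) : (k + 1) * k.factorial < 2 ^ ((n + 1) ^ 2) := by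
  have h1 : (k + 1).factorial ≤ (k + 1) ^ (k + 1) := Nat.factorial_le_pow (k + 1)
  rw [Nat.factorial_succ] at h1
  have h2 : (k + 1) ^ (k + 1) < (2 ^ (k + 1)) ^ (k + 1) :=
    Nat.pow_lt_pow_left Nat.lt_two_pow_self (by omega)
  have h3 : (2 ^ (k + 1)) ^ (k + 1) ≤ 2 ^ ((n + 1) ^ 2) := by
    rw [← pow_mul]
    refine Nat.pow_le_pow_right (by norm_num) ?_
    rw [sq]
    exact Nat.mul_le_mul (by omega) (by omega)
  omega

/-- The rows of a reduced echelon form have small heights if the row space is spanned by vectors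
of small heights. -/
theorem Ech.hb_le {n : ℕ} {S : St ℚ} (h : Ech n S) {A : Set (ℕ → ℚ)}
    (hA : Sp (rows S) = Submodule.span ℚ A) {b : ℕ} (hb : ∀ x ∈ A, HB b x) :
    ∀ p ∈ S, HB ((n + 1) ^ 2 * (b + 1)) (vl p.2) := by
  classical
  set k := S.length with hk
  intro p hp i
  obtain ⟨c0, rfl⟩ := List.get_of_mem hp
  have hkn : k ≤ n := by
    have h1 : (S.map Prod.fst).length ≤ (List.range n).length := by
      refine List.Subperm.length_le (List.subperm_of_subset h.nodup ?_)
      intro i hi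
      obtain ⟨p, hp, rfl⟩ := List.mem_map.1 hi
      exact List.mem_range.2 (h.lt p hp)
    simpa using h1
  obtain ⟨B, hBA, hBspan, hBli⟩ := exists_linearIndependent ℚ A
  -- index the family by `Fin k`
  obtain ⟨e⟩ : Nonempty (Fin k ≃ B) := by
    have hr : Submodule.span ℚ (Set.range (Subtype.val : B → ℕ → ℚ)) = Sp (rows S) := by
      rw [Subtype.range_coe_subtype, Set.ofPred_mem_eq, hBspan, hA]
    have bas : Module.Basis B ℚ (Sp (rows S)) := (Module.Basis.span hBli).map
      (LinearEquiv.ofEq _ _ hr)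
    have bas2 : Module.Basis (Fin k) ℚ (Sp (rows S)) := (Module.Basis.span
      h.linearIndependent).map (LinearEquiv.ofEq _ _ (Sp_rows_eq_range S).symm)
    exact ⟨bas2.indexEquiv bas⟩
  set u : Fin k → ℕ → ℚ := fun a => (e a : ℕ → ℚ) with hu
  have huA : ∀ a, u a ∈ A := fun a => hBA (e a).2
  have hubd : ∀ a, HB b (u a) := fun a => hb _ (huA a)
  have huli : LinearIndependent ℚ u := hBli.comp e e.injective
  have huspan : Submodule.span ℚ (Set.range u) = Sp (rows S) := by
    rw [hA, ← hBspan]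
    congr 1
    ext x
    constructor
    · rintro ⟨a, rfl⟩; exact (e a).2
    · intro hx
      exact ⟨e.symm ⟨x, hx⟩, by simp [hu]⟩
  have hrs : Sp (rows S) ≤ Fn ℚ n := by
    refine Sp_le_Fn fun v hv => ?_
    obtain ⟨q, hq, rfl⟩ := List.mem_map.1 hv
    exact h.supp q hq
  have husupp : ∀ a, Supp n (u a) := fun a => hrs (huspan ▸ Submodule.subset_span ⟨a, rfl⟩)
  set D : Fin k → ℚ := fun a => dprod n (u a) with hD
  have hD0 : ∀ a, D a ≠ 0 := fun a => by
    change ((dprod n (u a) : ℕ) : ℚ) ≠ 0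
    exact_mod_cast dprod_ne_zero n (u a)
  have hU : ∀ a j, ((intv n (u a) j : ℤ) : ℚ) = D a * u a j := fun a j => intv_eq (husupp a) j
  set pv : Fin k → ℕ := fun c => (S.get c).1 with hpv
  set N : Matrix (Fin k) (Fin k) ℤ := fun a c => intv n (u a) (pv c) with hN
  have hdet : N.det ≠ 0 := by
    intro h0
    obtain ⟨v, hv, hv0⟩ := Matrix.exists_vecMul_eq_zero_iff.2 h0
    apply hv
    have hx : (∑ a, ((v a : ℚ) * D a) • u a) = 0 := by
      apply h.eq_zero
      · rw [← huspan]
        exact Submodule.sum_mem _ fun a _ => Submodule.smul_mem _ _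
          (Submodule.subset_span ⟨a, rfl⟩)
      · intro q hq
        obtain ⟨c, rfl⟩ := List.get_of_mem hq
        have h1 := congrFun hv0 c
        rw [Matrix.vecMul, dotProduct, Pi.zero_apply] at h1
        have h2 : ((∑ a, v a * N a c : ℤ) : ℚ) = 0 := by rw [h1]; simp
        rw [← h2]
        push_cast
        rw [Finset.sum_apply]
        refine Finset.sum_congr rfl fun a _ => ?_
        rw [Pi.smul_apply, smul_eq_mul, hN]
        simp only
        rw [hU]
        ring
    rw [Fintype.linearIndependent_iff] at huli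
    funext a
    have h3 := huli _ hx a
    rcases mul_eq_zero.1 h3 with h4 | h4
    · exact_mod_cast h4
    · exact absurd h4 (hD0 a)
  -- the row as a combination of the integer vectors
  have hr : vl (S.get c0).2 ∈ Submodule.span ℚ (Set.range u) := by
    rw [huspan]; exact mem_Sp (mem_rows hp)
  rw [Submodule.mem_span_range_iff_exists_fun] at hr
  obtain ⟨c, hc⟩ := hr
  set d : Fin k → ℚ := fun a => c a / D a with hd
  have hrow : ∀ j, vl (S.get c0).2 j = ∑ a, d a * (intv n (u a) j : ℚ) := by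
    intro j
    rw [← hc, Finset.sum_apply]
    refine Finset.sum_congr rfl fun a _ => ?_
    rw [Pi.smul_apply, smul_eq_mul, hU, hd]
    have := hD0 a
    field_simp
  set NQ : Matrix (Fin k) (Fin k) ℚ := N.map (Int.castRingHom ℚ) with hNQ
  have hdN : Matrix.vecMul d NQ = Pi.single c0 1 := by
    funext c'
    rw [Matrix.vecMul, dotProduct]
    have e1 : ∑ a, d a * NQ a c' = vl (S.get c0).2 (pv c') := by
      rw [hrow]
      rfl
    rw [e1]
    by_cases hcc : c' = c0
    · subst hcc
      rw [Pi.single_eq_same]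
      exact h.one _ (List.get_mem _ _)
    · rw [Pi.single_eq_of_ne hcc]
      refine h.off _ (List.get_mem _ _) _ (List.get_mem _ _) fun h1 => hcc ?_
      have h3 := h.fst_inj (List.get_mem S c0) (List.get_mem S c') h1
      exact ((List.nodup_iff_injective_get.1 (List.Nodup.of_map _ h.nodup)) h3).symm
  have hadj : ∀ a, (N.det : ℚ) * d a = (N.adjugate c0 a : ℚ) := by
    intro a
    have h1 : Matrix.vecMul (Matrix.vecMul d NQ) NQ.adjugate = NQ.det • d := by
      rw [Matrix.vecMul_vecMul, Matrix.mul_adjugate, Matrix.vecMul_smul, Matrix.vecMul_one]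
    rw [hdN, Matrix.single_one_vecMul] at h1
    have h2 := congrFun h1 a
    have e1 : NQ.det = (N.det : ℚ) := by
      rw [hNQ, ← RingHom.mapMatrix_apply, ← RingHom.map_det]; rfl
    have e2 : NQ.adjugate c0 a = (N.adjugate c0 a : ℚ) := by
      rw [hNQ, ← RingHom.mapMatrix_apply, ← RingHom.map_adjugate]; rfl
    rw [Pi.smul_apply, smul_eq_mul, e1] at h2
    rw [← h2, ← e2]
    rfl
  have hfin : vl (S.get c0).2 i =
      ((∑ a, N.adjugate c0 a * intv n (u a) i : ℤ) : ℚ) / (N.det : ℤ) := by
    rw [eq_div_iff (by exact_mod_cast hdet), hrow, Finset.sum_mul, Int.cast_sum]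
    simp only [Int.cast_mul]
    refine Finset.sum_congr rfl fun a _ => ?_
    rw [← hadj]
    ring
  -- bounds
  set X : ℕ := 2 ^ (b * (n + 1)) with hX
  have hX1 : 1 ≤ X := Nat.one_le_two_pow
  have hNle : ∀ a c, (N a c).natAbs ≤ X := fun a c => natAbs_intv_le (hubd a) _
  have hdetle : N.det.natAbs ≤ k.factorial * X ^ k := by
    have h1 := Matrix.det_le (A := N) (abv := AbsoluteValue.abs) (x := (X : ℤ)) (by
      intro a c
      rw [AbsoluteValue.abs_apply, Int.abs_eq_natAbs]
      exact_mod_cast hNle a c)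
    rw [AbsoluteValue.abs_apply, Int.abs_eq_natAbs, Fintype.card_fin, nsmul_eq_mul] at h1
    exact_mod_cast h1
  have hadjle : ∀ a, (N.adjugate c0 a).natAbs ≤ k.factorial * X ^ k := by
    intro a
    rw [Matrix.adjugate_apply]
    have h1 := Matrix.det_le (A := N.updateRow a (Pi.single c0 1)) (abv := AbsoluteValue.abs)
      (x := (X : ℤ)) (by
      intro a' c
      rw [AbsoluteValue.abs_apply, Int.abs_eq_natAbs]
      rw [Matrix.updateRow_apply]
      split_ifs with h2
      · rw [Pi.single_apply]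
        split_ifs
        · simpa using hX1
        · simp
      · exact_mod_cast hNle a' c)
    rw [AbsoluteValue.abs_apply, Int.abs_eq_natAbs, Fintype.card_fin, nsmul_eq_mul] at h1
    exact_mod_cast h1
  have hpow : X ^ (k + 1) ≤ 2 ^ ((n + 1) ^ 2 * b) := by
    rw [hX, ← pow_mul]
    refine Nat.pow_le_pow_right (by norm_num) ?_
    calc b * (n + 1) * (k + 1) ≤ b * (n + 1) * (n + 1) := Nat.mul_le_mul_left _ (by omega)
      _ = (n + 1) ^ 2 * b := by ring
  have hfac := factorial_bound hkn
  have hprod : (k + 1) * k.factorial * X ^ (k + 1) < 2 ^ ((n + 1) ^ 2 * (b + 1)) := by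
    calc (k + 1) * k.factorial * X ^ (k + 1) < 2 ^ ((n + 1) ^ 2) * 2 ^ ((n + 1) ^ 2 * b) :=
          Nat.mul_lt_mul_of_lt_of_le hfac hpow (by positivity)
      _ = 2 ^ ((n + 1) ^ 2 * (b + 1)) := by rw [← pow_add]; congr 1; ring
  refine hb_div_le hdet ?_ ?_ hfin
  · refine lt_of_le_of_lt ?_ hprod
    calc (∑ a, N.adjugate c0 a * intv n (u a) i).natAbs
        ≤ ∑ a : Fin k, (N.adjugate c0 a * intv n (u a) i).natAbs := Int.natAbs_sum_le _ _
      _ ≤ ∑ _a : Fin k, k.factorial * X ^ k * X := by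
          refine Finset.sum_le_sum fun a _ => ?_
          rw [Int.natAbs_mul]
          exact Nat.mul_le_mul (hadjle a) (natAbs_intv_le (hubd a) _)
      _ = k * (k.factorial * X ^ k * X) := by
          rw [Finset.sum_const, Finset.card_univ, Fintype.card_fin, smul_eq_mul]
      _ ≤ (k + 1) * k.factorial * X ^ (k + 1) := by
          rw [pow_succ]
          nlinarith [Nat.zero_le (k.factorial * (X ^ k * X))]
  · refine lt_of_le_of_lt (hdetle.trans ?_) hprod
    rw [pow_succ]
    calc k.factorial * X ^ k = 1 * k.factorial * (X ^ k * 1) := by ring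
      _ ≤ (k + 1) * k.factorial * (X ^ k * X) :=
        Nat.mul_le_mul (Nat.mul_le_mul_right _ (by omega)) (Nat.mul_le_mul_left _ hX1)

end Pool.Agent.LinAlg
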