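import Pool.Agent.LinAlg.Cramer

/-!
The elimination is polynomial-time computable over the rationals.
-/

set_option autoImplicit false
set_option linter.unusedSectionVars false

namespace Pool.Agent.LinAlg

open Pool.Agent.PolyTime

section

variable {α β γ : Type} [PEnc α] [PEnc β] [PEnc γ]

theorem pt_mkv {n : α → ℕ} {f : α → ℕ → ℚ} (hn : PolyTime n) (hb : PBd n)
    (hf : PolyTime fun p : α × ℕ => f p.1 p.2) : PolyTime (fun a => mkv (n a) (f a)) :=
  PolyTime.map (PolyTime.range hn hb) hf

@[fun_prop]
theorem pt_vl {v : α → List ℚ} {i : α → ℕ} (hv : PolyTime v) (hi : PolyTime i) :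
    PolyTime (fun a => vl (v a) (i a)) := by
  unfold vl
  fun_prop

@[fun_prop]
theorem pt_rat_sum {l : α → List ℚ} (hl : PolyTime l) : PolyTime (fun a => (l a).sum) := by
  refine (PolyTime.foldr (s := fun _ => (0 : ℚ)) (h := fun _ m n => m + n) hl (PolyTime.const 0)
    (by fun_prop) (B := fun a => 3 * (size (l a) * (size (l a) + 1) + 1) + 7) ?_ ?_).congr
    (fun a => rfl)
  · exact ((PBd.const 3).mul ((hl.pbd.mul (hl.pbd.add (PBd.const 1))).add (PBd.const 1))).add
      (PBd.const 7)
  · intro a i
    refine (size_rat_le _).trans ?_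
    have h1 : hb (((l a).drop i).foldr (fun m n => m + n) 0) ≤
        ((l a).drop i).length * (size (l a) + 1) + 1 :=
      hb_list_sum _ fun x hx => (hb_le_size x).trans (size_mem_le (List.mem_of_mem_drop hx))
    have h2 : ((l a).drop i).length ≤ size (l a) := by
      refine le_trans ?_ (length_le_size (l a))
      simp
    have h3 := Nat.mul_le_mul_right (size (l a) + 1) h2
    omega

theorem pt_red {n : α → ℕ} {S : α → St ℚ} {v : α → List ℚ} (hn : PolyTime n) (hb : PBd n)
    (hS : PolyTime S) (hv : PolyTime v) : PolyTime (fun a => red (n a) (S a) (v a)) := by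
  unfold red
  refine pt_mkv hn hb ?_
  refine PolyTime.rat_sub (by fun_prop) ?_
  refine pt_rat_sum ?_
  exact PolyTime.map (l := fun p : α × ℕ => S p.1)
    (g := fun (p : α × ℕ) (q : ℕ × List ℚ) => vl (v p.1) q.1 * vl q.2 p.2) (by fun_prop)
    (by fun_prop)

theorem pt_lead {n : α → ℕ} {v : α → List ℚ} (hn : PolyTime n) (hb : PBd n)
    (hv : PolyTime v) : PolyTime (fun a => lead (n a) (v a)) := by
  unfold lead
  exact PolyTime.find? (PolyTime.range hn hb) (by fun_prop)

theorem pt_ins {n : α → ℕ} {S : α → St ℚ} {w : α → List ℚ} {j : α → ℕ} (hn : PolyTime n)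
    (hb : PBd n) (hS : PolyTime S) (hw : PolyTime w) (hj : PolyTime j) :
    PolyTime (fun a => ins (n a) (S a) (w a) (j a)) := by
  unfold ins
  refine PolyTime.cons ?_ ?_
  · exact PolyTime.prodMk hj (pt_mkv hn hb (by fun_prop))
  · refine PolyTime.map hS ?_
    refine PolyTime.prodMk (by fun_prop) ?_
    exact pt_mkv (n := fun p : α × ℕ × List ℚ => n p.1) (by fun_prop)
      (hb.comp PolyTime.fst') (by fun_prop)

theorem pt_step {n : α → ℕ} {S : α → St ℚ} {v : α → List ℚ} (hn : PolyTime n) (hb : PBd n)
    (hS : PolyTime S) (hv : PolyTime v) : PolyTime (fun a => step (n a) (S a) (v a)) := by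
  unfold step
  refine PolyTime.option_elim (pt_lead hn hb (pt_red hn hb hS hv)) hS ?_
  exact pt_ins (n := fun p : α × ℕ => n p.1) (S := fun p : α × ℕ => S p.1)
    (w := fun p : α × ℕ => red (n p.1) (S p.1) (v p.1)) (j := fun p => p.2)
    (by fun_prop) (hb.comp PolyTime.fst') (by fun_prop)
    ((pt_red hn hb hS hv).comp PolyTime.fst') (by fun_prop)

/-- The bound for the heights of the rows. -/
def hbd (n b : ℕ) : ℕ := (n + 1) ^ 2 * (b + 1)

theorem size_ech {n : ℕ} {S : St ℚ} (h : Ech n S) {B : ℕ} (hB : ∀ p ∈ S, HB B (vl p.2))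
    (hlen : ∀ p ∈ S, p.2.length = n) :
    size S ≤ n * (2 * (2 * n + 1 + n * (2 * (3 * B + 7) + 1)) + 1) := by
  have h1 := size_le_of_forall (l := S) (B := 2 * n + 1 + n * (2 * (3 * B + 7) + 1))
    (fun p hp => by
      rw [size_prod]
      have h2 : size p.1 ≤ n := (size_nat_self _).trans (h.lt p hp).le
      have h3 : size p.2 ≤ n * (2 * (3 * B + 7) + 1) := by
        have h4 := size_le_of_forall (l := p.2) (B := 3 * B + 7) (fun a ha => by
          refine (size_rat_le _).trans ?_
          obtain ⟨i, hi, rfl⟩ := List.getElem_of_mem ha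
          have h5 := hB p hp i
          unfold vl at h5
          rw [List.getD_eq_getElem _ _ hi] at h5
          omega)
        rwa [hlen p hp] at h4
      omega)
  refine h1.trans (Nat.mul_le_mul_right _ ?_)
  have h6 : (S.map Prod.fst).length ≤ (List.range n).length := by
    refine List.Subperm.length_le (List.subperm_of_subset h.nodup ?_)
    intro i hi
    obtain ⟨p, hp, rfl⟩ := List.mem_map.1 hi
    exact List.mem_range.2 (h.lt p hp)
  simpa using h6

theorem length_step {n : ℕ} {S : St ℚ} (hS : ∀ p ∈ S, p.2.length = n) (v : List ℚ) :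
    ∀ p ∈ step n S v, p.2.length = n := by
  unfold step
  cases lead n (red n S v) with
  | none => exact hS
  | some j =>
    intro p hp
    rcases List.mem_cons.1 hp with rfl | hp
    · simp
    · obtain ⟨q, _, rfl⟩ := List.mem_map.1 hp
      simp

theorem length_rref_mem (n : ℕ) (L : List (List ℚ)) : ∀ p ∈ rref n L, p.2.length = n := by
  unfold rref
  have key : ∀ (L : List (List ℚ)) (S : St ℚ), (∀ p ∈ S, p.2.length = n) →
      ∀ p ∈ L.foldl (step n) S, p.2.length = n := by
    intro L
    induction L with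
    | nil => intro S hS; exact hS
    | cons v L ih => intro S hS; exact ih _ (length_step hS v)
  exact key L [] (by simp)

/-- Truncation to the first `n` coordinates does not change the elimination. -/
theorem step_trunc (n : ℕ) (S : St ℚ) (hS : ∀ p ∈ S, p.1 < n) (v : List ℚ) :
    step n S (mkv n (vl v)) = step n S v := by
  have : red n S (mkv n (vl v)) = red n S v := by
    unfold red mkv
    refine List.map_congr_left fun i hi => ?_
    rw [List.mem_range] at hi
    change vl (mkv n (vl v)) i - _ = _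
    rw [vl_mkv_lt hi]
    congr 2
    refine List.map_congr_left fun p hp => ?_
    change vl (mkv n (vl v)) p.1 * _ = _
    rw [vl_mkv_lt (hS p hp)]
  unfold step
  rw [this]

theorem rref_trunc (n : ℕ) (L : List (List ℚ)) :
    rref n (L.map fun v => mkv n (vl v)) = rref n L := by
  unfold rref
  have key : ∀ (L : List (List ℚ)) (S : St ℚ), Ech n S →
      (L.map fun v => mkv n (vl v)).foldl (step n) S = L.foldl (step n) S := by
    intro L
    induction L with
    | nil => intro S _; rfl
    | cons v L ih =>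
      intro S hS
      rw [List.map_cons, List.foldl_cons, List.foldl_cons, step_trunc n S hS.lt,
        ih _ (hS.ech_step v)]
  exact key L [] (Ech.nil n)

theorem hb_rref {n b : ℕ} {L : List (List ℚ)} (hb1 : 1 ≤ b) (hL : ∀ v ∈ L, HB b (vl v)) :
    ∀ p ∈ rref n L, HB (hbd n b) (vl p.2) := by
  have hA : Sp (rows (rref n L)) =
      Submodule.span ℚ {x | ∃ v ∈ L.map (fun v => mkv n (vl v)), vl v = x} := by
    rw [← rref_trunc, Sp_rref]
    · rfl
    · intro v hv
      obtain ⟨u, _, rfl⟩ := List.mem_map.1 hv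
      exact supp_mkv _ _
  refine (ech_rref n L).hb_le hA ?_
  rintro _ ⟨v, hv, rfl⟩
  obtain ⟨u, hu, rfl⟩ := List.mem_map.1 hv
  intro i
  rw [vl_mkv]
  split_ifs
  · exact hL u hu i
  · rw [hb_zero]; exact hb1

theorem size_rref_le {n b : ℕ} {L : List (List ℚ)} (hb1 : 1 ≤ b) (hL : ∀ v ∈ L, HB b (vl v)) :
    size (rref n L) ≤ n * (2 * (2 * n + 1 + n * (2 * (3 * hbd n b + 7) + 1)) + 1) :=
  size_ech (ech_rref n L) (hb_rref hb1 hL) (length_rref_mem n L)

/-- The elimination is polynomial-time computable. -/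
theorem pt_rref {n : α → ℕ} {L : α → List (List ℚ)} (hn : PolyTime n) (hb : PBd n)
    (hL : PolyTime L) : PolyTime (fun a => rref (n a) (L a)) := by
  unfold rref
  refine PolyTime.foldl (h := fun a S v => step (n a) S v) (B := fun a => n a * (2 * (2 * n a + 1 +
    n a * (2 * (3 * ((n a + 1) ^ 2 * (size (L a) + 1 + 1)) + 7) + 1)) + 1)) hL
    (PolyTime.const []) ?_ ?_ ?_
  · exact pt_step (n := fun q : α × St ℚ × List ℚ => n q.1) (by fun_prop)
      (hb.comp PolyTime.fst') (by fun_prop) (by fun_prop)
  · have h1 : PBd fun a => (n a + 1) ^ 2 * (size (L a) + 1 + 1) :=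
      ((hb.add (PBd.const 1)).pow 2).mul ((hL.pbd.add (PBd.const 1)).add (PBd.const 1))
    have h2 : PBd fun a => n a * (2 * (3 * ((n a + 1) ^ 2 * (size (L a) + 1 + 1)) + 7) + 1) :=
      hb.mul (((PBd.const 2).mul (((PBd.const 3).mul h1).add (PBd.const 7))).add (PBd.const 1))
    exact hb.mul (((PBd.const 2).mul ((((PBd.const 2).mul hb).add (PBd.const 1)).add h2)).add
      (PBd.const 1))
  · intro a i
    refine size_rref_le (n := n a) (b := size (L a) + 1) (L := (L a).take i) (by omega) ?_
    intro v hv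
    refine (HB_size v).mono ?_
    have := size_mem_le (List.mem_of_mem_take hv)
    omega

theorem pt_rows {S : α → St ℚ} (hS : PolyTime S) : PolyTime (fun a => rows (S a)) := by
  unfold rows
  exact PolyTime.map hS (by fun_prop)

theorem pt_aug {n : α → ℕ} {L : α → List (List ℚ)} (hn : PolyTime n) (hb : PBd n)
    (hL : PolyTime L) : PolyTime (fun a => aug (n a) (L a)) := by
  unfold aug
  refine PolyTime.map (PolyTime.range_length hL) ?_
  refine pt_mkv (α := α × ℕ) (n := fun p => n p.1 + (L p.1).length) (by fun_prop)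
    ((hb.comp PolyTime.fst').add ((pbd_length hL).comp PolyTime.fst')) ?_
  refine PolyTime.ite (by fun_prop) ?_ ?_
  · fun_prop
  · exact PolyTime.ite (by fun_prop) (by fun_prop) (by fun_prop)

theorem pt_augS {n : α → ℕ} {L : α → List (List ℚ)} (hn : PolyTime n) (hb : PBd n)
    (hL : PolyTime L) : PolyTime (fun a => augS (n a) (L a)) :=
  pt_rref (by fun_prop) (hb.add (pbd_length hL)) (pt_aug hn hb hL)

theorem pt_rels {n : α → ℕ} {L : α → List (List ℚ)} (hn : PolyTime n) (hb : PBd n)
    (hL : PolyTime L) : PolyTime (fun a => rels (n a) (L a)) := by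
  unfold rels
  refine PolyTime.map (PolyTime.filter (pt_augS hn hb hL) (by fun_prop)) ?_
  exact pt_mkv (α := α × ℕ × List ℚ) (n := fun p => (L p.1).length) (by fun_prop)
    ((pbd_length hL).comp PolyTime.fst') (by fun_prop)

theorem pt_solve {n : α → ℕ} {L : α → List (List ℚ)} {v : α → List ℚ} (hn : PolyTime n)
    (hb : PBd n) (hL : PolyTime L) (hv : PolyTime v) :
    PolyTime (fun a => solve (n a) (L a) (v a)) := by
  unfold solve
  have h1 : PolyTime fun a => red (n a + (L a).length) (augS (n a) (L a)) (mkv (n a) (vl (v a))) :=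
    pt_red (by fun_prop) (hb.add (pbd_length hL)) (pt_augS hn hb hL)
      (pt_mkv hn hb (by fun_prop))
  exact pt_mkv (by fun_prop) (pbd_length hL)
    (PolyTime.rat_neg (pt_vl (h1.comp PolyTime.fst') (by fun_prop)))

theorem pt_memb {n : α → ℕ} {L : α → List (List ℚ)} {v : α → List ℚ} (hn : PolyTime n)
    (hb : PBd n) (hL : PolyTime L) (hv : PolyTime v) :
    PolyTime (fun a => memb (n a) (L a) (v a)) := by
  unfold memb
  exact PolyTime.option_isNone (pt_lead hn hb (pt_red hn hb (pt_rref hn hb hL) hv))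

theorem pt_lc {n : α → ℕ} {L : α → List (List ℚ)} {c : α → List ℚ} (hn : PolyTime n)
    (hb : PBd n) (hL : PolyTime L) (hc : PolyTime c) :
    PolyTime (fun a => lc (n a) (L a) (c a)) := by
  unfold lc
  refine pt_mkv hn hb (pt_rat_sum ?_)
  exact PolyTime.map (PolyTime.range_length (by fun_prop)) (by fun_prop)

end

end Pool.Agent.LinAlg
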