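import Pool.Agent.LinAlg.Vec

/-!
Incremental reduced row echelon form.
-/

set_option autoImplicit false
set_option linter.unusedSectionVars false

namespace Pool.Agent.LinAlg

section

variable {K : Type} [Field K] [DecidableEq K]

/-- A state: rows with their pivots. -/
abbrev St (K : Type) := List (ℕ × List K)

/-- Reduction of a vector by the rows of a state. -/
def red (n : ℕ) (S : St K) (v : List K) : List K :=
  mkv n fun i => vl v i - (S.map fun p => vl v p.1 * vl p.2 i).sum

/-- The index of the first nonzero coordinate. -/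
def lead (n : ℕ) (v : List K) : Option ℕ := (List.range n).find? fun i => !decide (vl v i = 0)

/-- Insertion of a reduced vector with leading index `j`. -/
def ins (n : ℕ) (S : St K) (w : List K) (j : ℕ) : St K :=
  (j, mkv n fun i => vl w i / vl w j) ::
    S.map fun p => (p.1, mkv n fun i => vl p.2 i - vl p.2 j * (vl w i / vl w j))

/-- One step of the elimination. -/
def step (n : ℕ) (S : St K) (v : List K) : St K :=
  (lead n (red n S v)).elim S fun j => ins n S (red n S v) j

/-- The reduced row echelon form of a list of vectors. -/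
def rref (n : ℕ) (L : List (List K)) : St K := L.foldl (step n) []

/-- The rows of a state. -/
def rows (S : St K) : List (List K) := S.map Prod.snd

theorem lead_eq_none {n : ℕ} {v : List K} (h : lead n v = none) : ∀ i < n, vl v i = 0 := by
  unfold lead at h
  rw [List.find?_eq_none] at h
  intro i hi
  simpa using h i (List.mem_range.2 hi)

theorem lead_eq_some {n : ℕ} {v : List K} {j : ℕ} (h : lead n v = some j) :
    j < n ∧ vl v j ≠ 0 ∧ ∀ i < j, vl v i = 0 := by
  unfold lead at h
  rw [List.find?_range_eq_some] at h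
  obtain ⟨h1, h2, h3⟩ := h
  refine ⟨by simpa using h2, by simpa using h1, fun i hi => ?_⟩
  simpa using h3 i hi

/-- The invariant of the elimination. -/
structure Ech (n : ℕ) (S : St K) : Prop where
  lt : ∀ p ∈ S, p.1 < n
  one : ∀ p ∈ S, vl p.2 p.1 = 1
  off : ∀ p ∈ S, ∀ q ∈ S, p.1 ≠ q.1 → vl p.2 q.1 = 0
  nodup : (S.map Prod.fst).Nodup
  before : ∀ p ∈ S, ∀ i < p.1, vl p.2 i = 0
  supp : ∀ p ∈ S, Supp n (vl p.2)

theorem Ech.nil (n : ℕ) : Ech n ([] : St K) :=
  ⟨by simp, by simp, by simp, by simp, by simp, by simp⟩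

theorem Ech.fst_inj {n : ℕ} {S : St K} (h : Ech n S) {p q : ℕ × List K} (hp : p ∈ S) (hq : q ∈ S)
    (hpq : p.1 = q.1) : p = q :=
  List.inj_on_of_nodup_map h.nodup hp hq hpq

/-- A sum over the rows in which only one row contributes. -/
theorem Ech.sum_eq {n : ℕ} {S : St K} (h : Ech n S) (c : ℕ → K) {q : ℕ × List K} (hq : q ∈ S) :
    (S.map fun p => c p.1 * vl p.2 q.1).sum = c q.1 := by
  have hnd : S.Nodup := List.Nodup.of_map _ h.nodup
  rw [← List.sum_toFinset _ hnd, Finset.sum_eq_single q]
  · rw [h.one q hq, mul_one]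
  · intro p hp hpq
    rw [List.mem_toFinset] at hp
    rw [h.off p hp q hq fun h1 => hpq (h.fst_inj hp hq h1), mul_zero]
  · intro h1
    exact absurd (List.mem_toFinset.2 hq) h1

theorem vl_red {n : ℕ} {S : St K} {v : List K} {i : ℕ} (hi : i < n) :
    vl (red n S v) i = vl v i - (S.map fun p => vl v p.1 * vl p.2 i).sum := vl_mkv_lt hi

theorem Ech.red_pivot {n : ℕ} {S : St K} (h : Ech n S) (v : List K) {q : ℕ × List K}
    (hq : q ∈ S) : vl (red n S v) q.1 = 0 := by
  rw [vl_red (h.lt q hq), h.sum_eq (vl v) hq, sub_self]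

theorem list_sum_apply {ι : Type} (l : List ι) (f : ι → ℕ → K) (i : ℕ) :
    (l.map f).sum i = (l.map fun a => f a i).sum := by
  induction l with
  | nil => rfl
  | cons a l ih => rw [List.map_cons, List.sum_cons, List.map_cons, List.sum_cons, Pi.add_apply, ih]

theorem vl_red_eq {n : ℕ} {S : St K} (h : Ech n S) {v : List K} (hv : Supp n (vl v)) :
    vl (red n S v) = vl v - (S.map fun p => vl v p.1 • vl p.2).sum := by
  funext i
  rw [Pi.sub_apply, list_sum_apply]
  by_cases hi : i < n
  · rw [vl_red hi]; rfl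
  · have hi' : n ≤ i := by omega
    rw [red, vl_mkv_ge hi', hv i hi', zero_sub, eq_comm, neg_eq_zero]
    apply List.sum_eq_zero
    intro x hx
    obtain ⟨p, hp, rfl⟩ := List.mem_map.1 hx
    rw [Pi.smul_apply, h.supp p hp i hi', smul_zero]

theorem mem_rows {S : St K} {p : ℕ × List K} (hp : p ∈ S) : p.2 ∈ rows S :=
  List.mem_map.2 ⟨p, hp, rfl⟩

theorem sum_rows_mem (S : St K) (c : ℕ → K) : (S.map fun p => c p.1 • vl p.2).sum ∈ Sp (rows S) := by
  apply list_sum_mem
  intro x hx
  obtain ⟨p, hp, rfl⟩ := List.mem_map.1 hx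
  exact Submodule.smul_mem _ _ (mem_Sp (mem_rows hp))

theorem Ech.sub_red_mem {n : ℕ} {S : St K} (h : Ech n S) {v : List K} (hv : Supp n (vl v)) :
    vl v - vl (red n S v) ∈ Sp (rows S) := by
  rw [vl_red_eq h hv, sub_sub_cancel]
  exact sum_rows_mem S _

theorem Ech.ech_ins {n : ℕ} {S : St K} (h : Ech n S) {w : List K} {j : ℕ} (hj : j < n)
    (hwj : vl w j ≠ 0) (hb : ∀ i < j, vl w i = 0) (hp : ∀ p ∈ S, vl w p.1 = 0) :
    Ech n (ins n S w j) := by
  have hjS : ∀ p ∈ S, p.1 ≠ j := by
    intro p hpS hpj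
    exact hwj (hpj ▸ hp p hpS)
  have hw' : ∀ i, i < n → vl (mkv n fun i => vl w i / vl w j) i = vl w i / vl w j :=
    fun i hi => vl_mkv_lt hi
  refine ⟨?_, ?_, ?_, ?_, ?_, ?_⟩
  · intro p hpS
    rcases List.mem_cons.1 hpS with rfl | hpS
    · exact hj
    · obtain ⟨q, hq, rfl⟩ := List.mem_map.1 hpS
      exact h.lt q hq
  · intro p hpS
    rcases List.mem_cons.1 hpS with rfl | hpS
    · rw [hw' j hj, div_self hwj]
    · obtain ⟨q, hq, rfl⟩ := List.mem_map.1 hpS
      rw [vl_mkv_lt (h.lt q hq), h.one q hq, hp q hq, zero_div, mul_zero, sub_zero]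
  · intro p hpS q hqS hpq
    rcases List.mem_cons.1 hpS with rfl | hpS
    · rcases List.mem_cons.1 hqS with rfl | hqS
      · exact absurd rfl hpq
      · obtain ⟨q', hq', rfl⟩ := List.mem_map.1 hqS
        rw [hw' _ (h.lt q' hq'), hp q' hq', zero_div]
    · obtain ⟨p', hp', rfl⟩ := List.mem_map.1 hpS
      rcases List.mem_cons.1 hqS with rfl | hqS
      · rw [vl_mkv_lt hj, div_self hwj, mul_one, sub_self]
      · obtain ⟨q', hq', rfl⟩ := List.mem_map.1 hqS
        rw [vl_mkv_lt (h.lt q' hq'), h.off p' hp' q' hq' hpq, hp q' hq', zero_div, mul_zero,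
          sub_zero]
  · rw [ins, List.map_cons, List.nodup_cons, List.map_map]
    refine ⟨?_, h.nodup⟩
    intro hmem
    obtain ⟨q, hq, hqj⟩ := List.mem_map.1 hmem
    exact hjS q hq hqj
  · intro p hpS i hi
    rcases List.mem_cons.1 hpS with rfl | hpS
    · have hij : i < j := hi
      rw [hw' i (hij.trans hj), hb i hi, zero_div]
    · obtain ⟨q, hq, rfl⟩ := List.mem_map.1 hpS
      have hiq : i < q.1 := hi
      rw [vl_mkv_lt (hiq.trans (h.lt q hq)), h.before q hq i hiq, zero_sub, neg_eq_zero]
      by_cases hqj : vl q.2 j = 0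
      · rw [hqj, zero_mul]
      · have : ¬ j < q.1 := fun hlt => hqj (h.before q hq j hlt)
        rw [hb i (by omega), zero_div, mul_zero]
  · intro p hpS
    rcases List.mem_cons.1 hpS with rfl | hpS
    · exact supp_mkv _ _
    · obtain ⟨q, hq, rfl⟩ := List.mem_map.1 hpS
      exact supp_mkv _ _

theorem Ech.Sp_ins {n : ℕ} {S : St K} (h : Ech n S) {w : List K} {j : ℕ}
    (hwj : vl w j ≠ 0) (hws : Supp n (vl w)) :
    Sp (rows (ins n S w j)) = Submodule.span K {vl w} ⊔ Sp (rows S) := by
  have e1 : vl (mkv n fun i => vl w i / vl w j) = (vl w j)⁻¹ • vl w := by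
    funext i
    rw [vl_mkv, Pi.smul_apply, smul_eq_mul]
    split_ifs with h1
    · rw [div_eq_inv_mul]
    · rw [hws i (by omega), mul_zero]
  have e2 : ∀ p ∈ S, vl (mkv n fun i => vl p.2 i - vl p.2 j * (vl w i / vl w j)) =
      vl p.2 - (vl p.2 j * (vl w j)⁻¹) • vl w := by
    intro p hp
    funext i
    rw [vl_mkv, Pi.sub_apply, Pi.smul_apply, smul_eq_mul]
    split_ifs with h1
    · rw [div_eq_inv_mul]; ring
    · rw [hws i (by omega), mul_zero, sub_zero, h.supp p hp i (by omega)]
  have hwm : vl w ∈ Sp (rows (ins n S w j)) := by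
    have : vl w = vl w j • vl (mkv n fun i => vl w i / vl w j) := by
      rw [e1, smul_smul, mul_inv_cancel₀ hwj, one_smul]
    rw [this]
    exact Submodule.smul_mem _ _ (mem_Sp (List.mem_map.2 ⟨_, List.mem_cons_self, rfl⟩))
  apply le_antisymm
  · rw [Sp_le]
    intro v hv
    obtain ⟨p, hp, rfl⟩ := List.mem_map.1 hv
    rcases List.mem_cons.1 hp with rfl | hp
    · refine Submodule.mem_sup_left ?_
      rw [e1]
      exact Submodule.smul_mem _ _ (Submodule.mem_span_singleton_self _)
    · obtain ⟨q, hq, rfl⟩ := List.mem_map.1 hp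
      change vl (mkv n fun i => vl q.2 i - vl q.2 j * (vl w i / vl w j)) ∈ _
      rw [e2 q hq]
      exact Submodule.sub_mem _ (Submodule.mem_sup_right (mem_Sp (mem_rows hq)))
        (Submodule.mem_sup_left (Submodule.smul_mem _ _ (Submodule.mem_span_singleton_self _)))
  · refine sup_le ?_ ?_
    · rw [Submodule.span_singleton_le_iff_mem]; exact hwm
    · rw [Sp_le]
      intro v hv
      obtain ⟨q, hq, rfl⟩ := List.mem_map.1 hv
      have : vl q.2 = vl (mkv n fun i => vl q.2 i - vl q.2 j * (vl w i / vl w j)) +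
          (vl q.2 j * (vl w j)⁻¹) • vl w := by
        rw [e2 q hq, sub_add_cancel]
      rw [this]
      refine Submodule.add_mem _ (mem_Sp ?_) (Submodule.smul_mem _ _ hwm)
      exact List.mem_map.2 ⟨_, List.mem_cons_of_mem _ (List.mem_map.2 ⟨q, hq, rfl⟩), rfl⟩

theorem Ech.ech_step {n : ℕ} {S : St K} (h : Ech n S) (v : List K) : Ech n (step n S v) := by
  unfold step
  cases hl : lead n (red n S v) with
  | none => exact h
  | some j =>
    obtain ⟨h1, h2, h3⟩ := lead_eq_some hl
    exact h.ech_ins h1 h2 h3 fun p hp => h.red_pivot v hp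

theorem Ech.Sp_step {n : ℕ} {S : St K} (h : Ech n S) {v : List K} (hv : Supp n (vl v)) :
    Sp (rows (step n S v)) = Submodule.span K {vl v} ⊔ Sp (rows S) := by
  have hm := h.sub_red_mem hv
  unfold step
  cases hl : lead n (red n S v) with
  | none =>
    have h0 : vl (red n S v) = 0 := by
      funext i
      by_cases hi : i < n
      · exact lead_eq_none hl i hi
      · exact supp_mkv _ _ i (by omega)
    rw [h0, sub_zero] at hm
    refine (sup_eq_right.2 ?_).symm
    rw [Submodule.span_singleton_le_iff_mem]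
    exact hm
  | some j =>
    obtain ⟨h1, h2, h3⟩ := lead_eq_some hl
    change Sp (rows (ins n S (red n S v) j)) = _
    rw [h.Sp_ins h2 (supp_mkv _ _)]
    apply le_antisymm
    · refine sup_le ?_ le_sup_right
      rw [Submodule.span_singleton_le_iff_mem]
      have : vl (red n S v) = vl v - (vl v - vl (red n S v)) := by rw [sub_sub_cancel]
      rw [this]
      exact Submodule.sub_mem _ (Submodule.mem_sup_left (Submodule.mem_span_singleton_self _))
        (Submodule.mem_sup_right hm)
    · refine sup_le ?_ le_sup_right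
      rw [Submodule.span_singleton_le_iff_mem]
      have : vl v = vl (red n S v) + (vl v - vl (red n S v)) := by rw [add_sub_cancel]
      rw [this]
      exact Submodule.add_mem _ (Submodule.mem_sup_left (Submodule.mem_span_singleton_self _))
        (Submodule.mem_sup_right hm)

theorem Ech.ech_foldl {n : ℕ} (L : List (List K)) : ∀ {S : St K}, Ech n S →
    Ech n (L.foldl (step n) S) := by
  induction L with
  | nil => intro S h; exact h
  | cons v L ih => intro S h; exact ih (h.ech_step v)

theorem Sp_foldl {n : ℕ} (L : List (List K)) : ∀ {S : St K}, Ech n S →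
    (∀ v ∈ L, Supp n (vl v)) →
    Sp (rows (L.foldl (step n) S)) = Sp L ⊔ Sp (rows S) := by
  induction L with
  | nil => intro S h _; rw [List.foldl_nil, Sp_nil, bot_sup_eq]
  | cons v L ih =>
    intro S h hL
    rw [List.foldl_cons, ih (h.ech_step v) fun u hu => hL u (List.mem_cons_of_mem _ hu),
      h.Sp_step (hL v List.mem_cons_self), Sp_cons, sup_comm (Submodule.span K _) (Sp L),
      sup_assoc]

theorem ech_rref (n : ℕ) (L : List (List K)) : Ech n (rref n L) := Ech.ech_foldl L (Ech.nil n)

theorem Sp_rref {n : ℕ} {L : List (List K)} (hL : ∀ v ∈ L, Supp n (vl v)) :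
    Sp (rows (rref n L)) = Sp L := by
  unfold rref
  rw [Sp_foldl L (Ech.nil n) hL]
  simp [rows]

theorem length_rref_le (n : ℕ) (L : List (List K)) : (rref n L).length ≤ n := by
  have h := ech_rref n L
  have h1 : ((rref n L).map Prod.fst).length ≤ (List.range n).length := by
    refine List.Subperm.length_le (List.subperm_of_subset h.nodup ?_)
    intro i hi
    obtain ⟨p, hp, rfl⟩ := List.mem_map.1 hi
    exact List.mem_range.2 (h.lt p hp)
  simpa using h1

/-- Coordinates with respect to the rows of a state. -/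
theorem Ech.eq_sum {n : ℕ} {S : St K} (h : Ech n S) {x : ℕ → K} (hx : x ∈ Sp (rows S)) :
    x = (S.map fun p => x p.1 • vl p.2).sum := by
  induction hx using Submodule.span_induction with
  | mem x hx =>
    obtain ⟨v, hv, rfl⟩ := hx
    obtain ⟨q, hq, rfl⟩ := List.mem_map.1 hv
    have hnd : S.Nodup := List.Nodup.of_map _ h.nodup
    rw [← List.sum_toFinset _ hnd, Finset.sum_eq_single q]
    · rw [h.one q hq, one_smul]
    · intro p hp hpq
      rw [List.mem_toFinset] at hp
      rw [h.off q hq p hp fun h1 => hpq (h.fst_inj hp hq h1.symm), zero_smul]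
    · intro h1
      exact absurd (List.mem_toFinset.2 hq) h1
  | zero =>
    rw [eq_comm]
    apply List.sum_eq_zero
    intro x hx
    obtain ⟨p, _, rfl⟩ := List.mem_map.1 hx
    simp
  | add x y _ _ hx hy =>
    funext i
    have h1 := congrFun hx i
    have h2 := congrFun hy i
    rw [list_sum_apply] at h1 h2 ⊢
    rw [Pi.add_apply, h1, h2, ← List.sum_map_add]
    congr 1
    apply List.map_congr_left
    intro p _
    simp [add_mul]
  | smul c x _ hx =>
    funext i
    have h1 := congrFun hx i
    rw [list_sum_apply] at h1 ⊢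
    rw [Pi.smul_apply, h1, smul_eq_mul, ← List.sum_map_mul_left]
    congr 1
    apply List.map_congr_left
    intro p _
    simp [mul_assoc]

/-- A vector of the span is zero if it vanishes at the pivots. -/
theorem Ech.eq_zero {n : ℕ} {S : St K} (h : Ech n S) {x : ℕ → K} (hx : x ∈ Sp (rows S))
    (h0 : ∀ p ∈ S, x p.1 = 0) : x = 0 := by
  rw [h.eq_sum hx]
  apply List.sum_eq_zero
  intro y hy
  obtain ⟨p, hp, rfl⟩ := List.mem_map.1 hy
  rw [h0 p hp, zero_smul]

theorem Ech.red_eq_zero_iff {n : ℕ} {S : St K} (h : Ech n S) {v : List K}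
    (hv : Supp n (vl v)) : vl (red n S v) = 0 ↔ vl v ∈ Sp (rows S) := by
  have hm := h.sub_red_mem hv
  constructor
  · intro h0
    rwa [h0, sub_zero] at hm
  · intro hvm
    have h1 : vl (red n S v) ∈ Sp (rows S) := by
      have : vl (red n S v) = vl v - (vl v - vl (red n S v)) := by rw [sub_sub_cancel]
      rw [this]
      exact Submodule.sub_mem _ hvm hm
    exact h.eq_zero h1 fun p hp => h.red_pivot v hp

/-- The rows are linearly independent. -/
theorem Ech.linearIndependent {n : ℕ} {S : St K} (h : Ech n S) :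
    LinearIndependent K (fun i : Fin S.length => vl (S.get i).2) := by
  rw [Fintype.linearIndependent_iff]
  intro c hc i
  have h1 := congrFun hc (S.get i).1
  rw [Finset.sum_apply, Pi.zero_apply, Finset.sum_eq_single i] at h1
  · rw [Pi.smul_apply, h.one _ (List.get_mem _ _), smul_eq_mul, mul_one] at h1
    exact h1
  · intro k _ hk
    rw [Pi.smul_apply, h.off _ (List.get_mem _ _) _ (List.get_mem _ _), smul_zero]
    intro h2
    have h3 := h.fst_inj (List.get_mem S k) (List.get_mem S i) h2
    exact hk ((List.nodup_iff_injective_get.1 (List.Nodup.of_map _ h.nodup)) h3)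
  · intro h2
    exact absurd (Finset.mem_univ i) h2

theorem Sp_rows_eq_range (S : St K) :
    Sp (rows S) = Submodule.span K (Set.range fun i : Fin S.length => vl (S.get i).2) := by
  unfold Sp rows
  congr 1
  ext x
  constructor
  · rintro ⟨v, hv, rfl⟩
    obtain ⟨p, hp, rfl⟩ := List.mem_map.1 hv
    obtain ⟨i, rfl⟩ := List.get_of_mem hp
    exact ⟨i, rfl⟩
  · rintro ⟨i, rfl⟩
    exact ⟨_, List.mem_map.2 ⟨_, List.get_mem S i, rfl⟩, rfl⟩

theorem Ech.finrank {n : ℕ} {S : St K} (h : Ech n S) :
    Module.finrank K (Sp (rows S)) = S.length := by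
  rw [Sp_rows_eq_range, finrank_span_eq_card h.linearIndependent, Fintype.card_fin]

/-- The rank of a list of vectors. -/
theorem finrank_Sp {n : ℕ} {L : List (List K)} (hL : ∀ v ∈ L, Supp n (vl v)) :
    Module.finrank K (Sp L) = (rref n L).length := by
  rw [← Sp_rref hL, (ech_rref n L).finrank]

end

end Pool.Agent.LinAlg
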