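import Mathlib

/-!
Vectors as lists over a field, read as functions on the natural numbers, and their spans.
-/

set_option autoImplicit false

namespace Pool.Agent.LinAlg

section

variable {K : Type} [Field K]

/-- The coordinates of a list, padded with zeros. -/
def vl (v : List K) : ℕ → K := fun i => v.getD i 0

/-- The list of the first `n` values of a function. -/
def mkv (n : ℕ) (f : ℕ → K) : List K := (List.range n).map f

omit [Field K] in
@[simp] theorem length_mkv (n : ℕ) (f : ℕ → K) : (mkv n f).length = n := by simp [mkv]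

theorem vl_mkv (n : ℕ) (f : ℕ → K) (i : ℕ) : vl (mkv n f) i = if i < n then f i else 0 := by
  unfold vl mkv
  rw [List.getD_eq_getElem?_getD, List.getElem?_map]
  by_cases h : i < n
  · rw [if_pos h, List.getElem?_range h]; rfl
  · rw [if_neg h, List.getElem?_eq_none (by simpa using h)]; rfl

theorem vl_mkv_lt {n : ℕ} {f : ℕ → K} {i : ℕ} (h : i < n) : vl (mkv n f) i = f i := by
  rw [vl_mkv, if_pos h]

theorem vl_mkv_ge {n : ℕ} {f : ℕ → K} {i : ℕ} (h : n ≤ i) : vl (mkv n f) i = 0 := by
  rw [vl_mkv, if_neg (by omega)]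

theorem vl_ge {v : List K} {i : ℕ} (h : v.length ≤ i) : vl v i = 0 := by
  unfold vl
  rw [List.getD_eq_default _ _ h]

/-- `f` vanishes at and after `n`. -/
def Supp (n : ℕ) (f : ℕ → K) : Prop := ∀ i, n ≤ i → f i = 0

theorem supp_mkv (n : ℕ) (f : ℕ → K) : Supp n (vl (mkv n f)) := fun _ h => vl_mkv_ge h

theorem supp_vl {v : List K} {n : ℕ} (h : v.length ≤ n) : Supp n (vl v) :=
  fun _ hi => vl_ge (h.trans hi)

theorem vl_mkv_of_supp {n : ℕ} {f : ℕ → K} (h : Supp n f) : vl (mkv n f) = f := by
  funext i
  rw [vl_mkv]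
  split_ifs with h1
  · rfl
  · exact (h i (by omega)).symm

/-- The vectors with support in `[0, n)`. -/
def Fn (K : Type) [Field K] (n : ℕ) : Submodule K (ℕ → K) where
  carrier := {f | Supp n f}
  add_mem' := fun {a b} ha hb i hi => by rw [Pi.add_apply, ha i hi, hb i hi, add_zero]
  zero_mem' := fun _ _ => rfl
  smul_mem' := fun c a ha i hi => by rw [Pi.smul_apply, ha i hi, smul_zero]

theorem mem_Fn {n : ℕ} {f : ℕ → K} : f ∈ Fn K n ↔ Supp n f := Iff.rfl

/-- The span of a list of vectors. -/
def Sp (L : List (List K)) : Submodule K (ℕ → K) := Submodule.span K {x | ∃ v ∈ L, vl v = x}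

theorem mem_Sp {L : List (List K)} {v : List K} (h : v ∈ L) : vl v ∈ Sp L :=
  Submodule.subset_span ⟨v, h, rfl⟩

theorem Sp_le {L : List (List K)} {U : Submodule K (ℕ → K)} : Sp L ≤ U ↔ ∀ v ∈ L, vl v ∈ U := by
  unfold Sp
  rw [Submodule.span_le]
  constructor
  · intro h v hv; exact h ⟨v, hv, rfl⟩
  · rintro h _ ⟨v, hv, rfl⟩; exact h v hv

theorem Sp_mono {L M : List (List K)} (h : L ⊆ M) : Sp L ≤ Sp M :=
  Sp_le.2 fun _ hv => mem_Sp (h hv)

@[simp] theorem Sp_nil : Sp ([] : List (List K)) = ⊥ := by
  rw [eq_bot_iff, Sp_le]; simp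

theorem Sp_append (L M : List (List K)) : Sp (L ++ M) = Sp L ⊔ Sp M := by
  apply le_antisymm
  · rw [Sp_le]
    intro v hv
    rcases List.mem_append.1 hv with h | h
    · exact Submodule.mem_sup_left (mem_Sp h)
    · exact Submodule.mem_sup_right (mem_Sp h)
  · exact sup_le (Sp_mono (List.subset_append_left _ _)) (Sp_mono (List.subset_append_right _ _))

theorem Sp_cons (v : List K) (L : List (List K)) :
    Sp (v :: L) = Submodule.span K {vl v} ⊔ Sp L := by
  apply le_antisymm
  · rw [Sp_le]
    intro u hu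
    rcases List.mem_cons.1 hu with rfl | h
    · exact Submodule.mem_sup_left (Submodule.mem_span_singleton_self _)
    · exact Submodule.mem_sup_right (mem_Sp h)
  · refine sup_le ?_ (Sp_mono (List.subset_cons_self _ _))
    rw [Submodule.span_singleton_le_iff_mem]
    exact mem_Sp List.mem_cons_self

theorem Sp_congr {L M : List (List K)} (h : ∀ v, v ∈ L ↔ v ∈ M) : Sp L = Sp M :=
  le_antisymm (Sp_mono fun v hv => (h v).1 hv) (Sp_mono fun v hv => (h v).2 hv)

theorem Sp_le_Fn {L : List (List K)} {n : ℕ} (h : ∀ v ∈ L, Supp n (vl v)) : Sp L ≤ Fn K n :=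
  Sp_le.2 h

/-- The linear combination of the vectors of a list with coefficients `c`. -/
def comb (L : List (List K)) (c : ℕ → K) : ℕ → K :=
  fun j => ∑ i ∈ Finset.range L.length, c i * vl (L.getD i []) j

theorem comb_mem (L : List (List K)) (c : ℕ → K) : comb L c ∈ Sp L := by
  have : comb L c = ∑ i ∈ Finset.range L.length, c i • vl (L.getD i []) := by
    funext j
    simp [comb, Finset.sum_apply]
  rw [this]
  refine Submodule.sum_mem _ fun i hi => Submodule.smul_mem _ _ (mem_Sp ?_)
  rw [Finset.mem_range] at hi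
  rw [List.getD_eq_getElem _ _ hi]
  exact List.getElem_mem hi

theorem comb_add (L : List (List K)) (c d : ℕ → K) : comb L (c + d) = comb L c + comb L d := by
  funext j
  simp [comb, add_mul, Finset.sum_add_distrib]

theorem comb_smul (L : List (List K)) (a : K) (c : ℕ → K) : comb L (a • c) = a • comb L c := by
  funext j
  simp [comb, mul_assoc, Finset.mul_sum]

theorem comb_zero (L : List (List K)) : comb L 0 = 0 := by
  funext j
  simp [comb]

/-- Linear combinations as a linear map. -/
def combL (L : List (List K)) : (ℕ → K) →ₗ[K] (ℕ → K) where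
  toFun := comb L
  map_add' := comb_add L
  map_smul' := comb_smul L

@[simp] theorem combL_apply (L : List (List K)) (c : ℕ → K) : combL L c = comb L c := rfl

theorem comb_single (L : List (List K)) (i : ℕ) (hi : i < L.length) :
    comb L (Pi.single i 1) = vl (L.getD i []) := by
  funext j
  unfold comb
  rw [Finset.sum_eq_single i]
  · simp
  · intro k _ hk
    rw [Pi.single_eq_of_ne hk, zero_mul]
  · intro h
    exact absurd (Finset.mem_range.2 hi) h

theorem comb_congr (L : List (List K)) {c d : ℕ → K} (h : ∀ i < L.length, c i = d i) :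
    comb L c = comb L d := by
  funext j
  exact Finset.sum_congr rfl fun i hi => by rw [h i (Finset.mem_range.1 hi)]

theorem mem_Sp_iff_comb {L : List (List K)} {x : ℕ → K} :
    x ∈ Sp L ↔ ∃ c : ℕ → K, Supp L.length c ∧ comb L c = x := by
  constructor
  · intro hx
    have h : Sp L ≤ Submodule.map (combL L) (Fn K L.length) := by
      rw [Sp_le]
      intro v hv
      obtain ⟨i, hi, rfl⟩ := List.getElem_of_mem hv
      refine ⟨Pi.single i 1, ?_, ?_⟩
      · intro k hk
        rw [Pi.single_eq_of_ne (by omega)]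
      · rw [combL_apply, comb_single L i hi, List.getD_eq_getElem _ _ hi]
    obtain ⟨c, hc, h1⟩ := h hx
    exact ⟨c, hc, h1⟩
  · rintro ⟨c, _, rfl⟩
    exact comb_mem L c

end

end Pool.Agent.LinAlg
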